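import Pool.Agent.W533.PP.Stm

/-! PP-PEQ: the barred pattern condition is the vincular pattern condition. -/

set_option autoImplicit false

namespace Pool.Agent.W513.PP

open Pool.Agent.W533.PP

theorem peq : PEQ := by
  intro n σ
  constructor
  · intro h i j k l hij hjk hkl hp
    have hjk' : j < k := by
      rw [Fin.lt_def]
      omega
    obtain ⟨m, hm1, hm2, -, -⟩ := h i j k l hij hjk' hkl hp.1 hp.2.1 hp.2.2
    rw [Fin.lt_def] at hm1 hm2
    omega
  · intro h i j k l hij hjk hkl h1 h2 h3
    by_contra hno
    push Not at hno
    have key : ∀ t : ℕ, j.val ≤ t → ∀ ht : t < k.val, σ ⟨t, lt_trans ht k.isLt⟩ < σ i := by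
      intro t hjt
      induction t, hjt using Nat.le_induction with
      | base => intro _; exact h1
      | succ t hjt ih =>
        intro ht
        have ht' : t < k.val := by omega
        have ih' := ih ht'
        have hm := hno ⟨t + 1, lt_trans ht k.isLt⟩ (by rw [Fin.lt_def]; simp only; omega)
          (by rw [Fin.lt_def]; exact ht)
        by_contra hc
        have hge : σ i ≤ σ ⟨t + 1, lt_trans ht k.isLt⟩ := not_lt.mp hc
        have hne : σ i ≠ σ ⟨t + 1, lt_trans ht k.isLt⟩ := by
          intro he
          have := σ.injective he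
          rw [this, Fin.lt_def] at hij
          simp only at hij
          omega
        have hgt : σ i < σ ⟨t + 1, lt_trans ht k.isLt⟩ := lt_of_le_of_ne hge hne
        have hle := hm hgt
        have hne2 : σ l ≠ σ ⟨t + 1, lt_trans ht k.isLt⟩ := by
          intro he
          have := σ.injective he
          rw [this, Fin.lt_def] at hkl
          simp only at hkl
          omega
        have hlt : σ l < σ ⟨t + 1, lt_trans ht k.isLt⟩ := lt_of_le_of_ne hle hne2
        refine h i ⟨t, lt_trans ht' k.isLt⟩ ⟨t + 1, lt_trans ht k.isLt⟩ l ?_ rfl ?_ ⟨ih', h2, hlt⟩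
        · rw [Fin.lt_def] at hij ⊢
          simp only
          omega
        · rw [Fin.lt_def] at hkl ⊢
          simp only
          omega
    have hjk' : j.val < k.val := hjk
    have hlast := key (k.val - 1) (by omega) (by omega)
    refine h i ⟨k.val - 1, by omega⟩ k l ?_ ?_ hkl ⟨hlast, h2, h3⟩
    · rw [Fin.lt_def] at hij ⊢
      simp only
      omega
    · simp only
      omega

end Pool.Agent.W513.PP
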